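import Mathlib

namespace Pool.Agent.Results.MP_8d8cf3_an.Fails

open Finset Complex

/-- the periodic beam with (finitely supported) coefficients `c⁺ = p`, `c⁻ = q` -/
noncomputable def beam (p q : ℤ →₀ ℂ) (t x : ℝ) : ℂ :=
  p 0 + q 0 * t + ∑ k ∈ (p.support ∪ q.support).erase 0,
    (p k * exp (I * (k ^ 2 * t)) + q k * exp (-(I * (k ^ 2 * t)))) * exp (I * (k * x))

/-- `∑ (|c⁺_k|² + |c⁻_k|²)` -/
noncomputable def energy (p q : ℤ →₀ ℂ) : ℝ :=
  ∑ k ∈ p.support ∪ q.support, (‖p k‖ ^ 2 + ‖q k‖ ^ 2)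

noncomputable def pN (N : ℕ) : ℤ →₀ ℂ :=
  Finsupp.onFinset (Icc (-(N : ℤ)) N) (fun k => if |k| ≤ N then (Int.sign k : ℂ) else 0) (by
    intro k hk
    by_contra h
    apply hk
    rw [if_neg]
    rw [abs_le]
    simpa using h)

lemma pN_supp (N : ℕ) : (pN N).support = Icc (1 : ℤ) N ∪ Icc (-(N : ℤ)) (-1) := by
  ext k
  simp only [pN, Finsupp.mem_support_iff, Finsupp.onFinset_apply, ne_eq, ite_eq_right_iff,
    Int.cast_eq_zero, Int.sign_eq_zero_iff_zero, abs_le, mem_union, mem_Icc]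
  omega

lemma disj (N : ℕ) : Disjoint (Icc (1 : ℤ) N) (Icc (-(N : ℤ)) (-1)) := by
  rw [Finset.disjoint_left]; intro k h1 h2; simp at h1 h2; omega

lemma pN_pos (N : ℕ) {k : ℤ} (hk : k ∈ Icc (1 : ℤ) N) : pN N k = 1 := by
  rw [mem_Icc] at hk
  simp only [pN, Finsupp.onFinset_apply]
  rw [if_pos (abs_le.mpr ⟨by omega, hk.2⟩), Int.sign_eq_one_of_pos (by omega)]; simp

lemma pN_neg (N : ℕ) {k : ℤ} (hk : k ∈ Icc (-(N : ℤ)) (-1)) : pN N k = -1 := by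
  rw [mem_Icc] at hk
  simp only [pN, Finsupp.onFinset_apply]
  rw [if_pos (abs_le.mpr ⟨hk.1, by omega⟩), Int.sign_eq_neg_one_of_neg (by omega)]; simp

lemma energy_pN (N : ℕ) : energy (pN N) 0 = 2 * N := by
  simp only [energy, Finsupp.support_zero, union_empty, pN_supp, Finsupp.coe_zero, Pi.zero_apply,
    norm_zero]
  rw [Finset.sum_union (disj N),
    Finset.sum_congr (g := fun _ => (1 : ℝ)) rfl (fun k hk => by rw [pN_pos N hk]; simp),
    Finset.sum_congr (s₁ := Icc (-(N : ℤ)) (-1)) (g := fun _ => (1 : ℝ)) rfl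
      (fun k hk => by rw [pN_neg N hk]; simp)]
  simp; ring

lemma shift_bound (E : ℤ → ℂ) (hE : ∀ k, ‖E k‖ = 1) (N : ℕ) (a : ℤ) :
    ‖∑ k ∈ Icc (1 : ℤ) N, E k - ∑ k ∈ Icc (1 + a) (N + a), E k‖ ≤ 2 * |(a : ℝ)| := by
  rw [← Finset.sum_sdiff_sub_sum_sdiff]
  refine (norm_sub_le _ _).trans ?_
  have b : ∀ s : Finset ℤ, (s.card : ℤ) ≤ |a| → ‖∑ k ∈ s, E k‖ ≤ |(a : ℝ)| := by
    intro s hs
    refine (norm_sum_le _ _).trans ?_
    simp only [hE, sum_const, nsmul_eq_mul, mul_one]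
    exact_mod_cast hs
  have c : ∀ (s : Finset ℤ) (u : ℤ), s ⊆ Ico u (u + |a|) → (s.card : ℤ) ≤ |a| := by
    intro s u hs
    have := Finset.card_le_card hs
    rw [Int.card_Ico] at this
    have h0 := abs_nonneg a
    omega
  rcases le_total 0 a with h | h
  · have h1 := b (Icc (1 : ℤ) N \ Icc (1 + a) (N + a)) (c _ 1 (by
      intro k hk; simp only [mem_sdiff, mem_Icc, mem_Ico, abs_of_nonneg h] at hk ⊢; omega))
    have h2 := b (Icc (1 + a) (N + a) \ Icc (1 : ℤ) N) (c _ (N + 1) (by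
      intro k hk; simp only [mem_sdiff, mem_Icc, mem_Ico, abs_of_nonneg h] at hk ⊢; omega))
    linarith
  · have h1 := b (Icc (1 : ℤ) N \ Icc (1 + a) (N + a)) (c _ (N + a + 1) (by
      intro k hk; simp only [mem_sdiff, mem_Icc, mem_Ico, abs_of_nonpos h] at hk ⊢; omega))
    have h2 := b (Icc (1 + a) (N + a) \ Icc (1 : ℤ) N) (c _ (1 + a) (by
      intro k hk; simp only [mem_sdiff, mem_Icc, mem_Ico, abs_of_nonpos h] at hk ⊢; omega))
    linarith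

lemma beam_bound (N : ℕ) (a : ℤ) (t : ℝ) :
    ‖beam (pN N) 0 (0 + t) (0 - a * t)‖ ≤ 2 * |(a : ℝ)| := by
  let E : ℤ → ℂ := fun k => exp (I * ((k ^ 2 - a * k) * t))
  have hE : ∀ k, ‖E k‖ = 1 := fun k => by
    have := Complex.norm_exp_I_mul_ofReal (((k : ℝ) ^ 2 - a * k) * t)
    simpa [E] using this
  refine le_trans (le_of_eq ?_) (shift_bound E hE N a)
  congr 1
  have h0 : pN N 0 = 0 := by simp [pN]
  have h1 : (Icc (1 : ℤ) N ∪ Icc (-(N : ℤ)) (-1)).erase 0 = Icc (1 : ℤ) N ∪ Icc (-(N : ℤ)) (-1) :=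
    Finset.erase_eq_of_notMem (by simp)
  simp only [beam, Finsupp.support_zero, union_empty, pN_supp, Finsupp.coe_zero, Pi.zero_apply,
    zero_mul, add_zero, zero_add, h0, h1]
  rw [Finset.sum_union (disj N), sub_eq_add_neg (∑ k ∈ Icc (1 : ℤ) N, E k),
    ← Finset.sum_neg_distrib]
  congr 1
  · apply Finset.sum_congr rfl
    intro k hk
    rw [pN_pos N hk, one_mul, ← Complex.exp_add]
    simp only [E]; congr 1; push_cast; ring
  · refine Finset.sum_nbij' (fun k => a - k) (fun k => a - k) ?_ ?_ ?_ ?_ ?_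
    · intro k hk; simp only [mem_Icc] at hk ⊢; omega
    · intro k hk; simp only [mem_Icc] at hk ⊢; omega
    · intro k _; ring
    · intro k _; ring
    · intro k hk
      rw [pN_neg N hk, neg_mul, one_mul, neg_mul, ← Complex.exp_add]
      simp only [E]; congr 2; push_cast; ring

theorem result : ∀ (m : ℕ) (a : Fin m → ℤ) (T : ℝ), 0 < T → ∃ t₀ x₀ : Fin m → ℝ,
    ¬ ∃ α : ℝ, ∀ p q : ℤ →₀ ℂ, energy p q ≤
      α * ∑ i, ∫ t in (0 : ℝ)..T, ‖beam p q (t₀ i + t) (x₀ i - a i * t)‖ ^ 2 := by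
  intro m a T hT
  refine ⟨fun _ => 0, fun _ => 0, ?_⟩
  rintro ⟨α, h⟩
  obtain ⟨N, hN⟩ := exists_nat_gt (|α| * ∑ i, (2 * |(a i : ℝ)|) ^ 2 * T)
  have h1 := h (pN N) 0
  rw [energy_pN] at h1
  have b : ∀ i, |∫ t in (0 : ℝ)..T, ‖beam (pN N) 0 (0 + t) (0 - a i * t)‖ ^ 2|
      ≤ (2 * |(a i : ℝ)|) ^ 2 * T := by
    intro i
    have := intervalIntegral.norm_integral_le_of_norm_le_const (a := 0) (b := T)
      (C := (2 * |(a i : ℝ)|) ^ 2) (f := fun t => ‖beam (pN N) 0 (0 + t) (0 - a i * t)‖ ^ 2)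
      (fun t _ => by
        rw [Real.norm_eq_abs, abs_of_nonneg (sq_nonneg _)]
        exact pow_le_pow_left₀ (norm_nonneg _) (beam_bound N (a i) t) 2)
    simpa [abs_of_pos hT] using this
  have h2 : |∑ i, ∫ t in (0 : ℝ)..T, ‖beam (pN N) 0 (0 + t) (0 - a i * t)‖ ^ 2|
      ≤ ∑ i, (2 * |(a i : ℝ)|) ^ 2 * T :=
    (Finset.abs_sum_le_sum_abs _ _).trans (Finset.sum_le_sum fun i _ => b i)
  have h3 := (le_abs_self _).trans ((abs_mul α _).le.trans
    (mul_le_mul_of_nonneg_left h2 (abs_nonneg α)))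
  have : (0 : ℝ) ≤ N := Nat.cast_nonneg N
  linarith

end Pool.Agent.Results.MP_8d8cf3_an.Fails
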